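import Mathlib
import Pool.Agent.R931.ZF.Pol
import Pool.Agent.R931.ZF.Examples

/-!
# Semisimplicity and endomorphisms at 100 percent of the primes, without polarizations

Let `V_ℓ`, for all prime numbers `ℓ`, be the `ℓ`-adic realizations of a pure motive over a number
field `K`, or over a finitely generated field `k` of characteristic zero, of dimension `N`; or any system of
pure `ℓ`-adic representations of the Galois group with rational Frobenius polynomials, which need not be
polarized.  `Γ` is the Galois group of `K` (or the fundamental group of a model
over a number field `K`, and `s` is given by a `K`-rational point).  Outside of a finite set `S` of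
places `v` there is good reduction, with Frobenius polynomials `P v` independent of `ℓ`, and
`(q v) ^ c` times a Frobenius eigenvalue is an algebraic integer.  Let `r` be the maximal number of
multiplicatively independent Frobenius eigenvalues at a place (the rank of the `ℓ`-adic monodromy
groups, Serre).  Suppose that we know an algebra of endomorphisms of dimension `m`, for example the
algebra generated by algebraic correspondences: for every `ℓ` the endomorphisms of `V_ℓ` which commute with
some subgroup of finite index have dimension at least `m` (nothing is assumed if `m = 1`).

The *relations* between numbers `z_1, ..., z_N` are the vectors `n` of integers such that the product of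
the `z_i ^ {n_i}` is a root of unity.  Let `R` be a set of vectors which has rank at most `N - r`
(the relations between the Frobenius eigenvalues at a place of maximal rank), and let `A` be the group of
permutations of `{1, ..., N}` which preserve `R`.  An element `γ` of the image of the Galois group at a
prime `p` has the *type* `a` (with respect to `p` and to an automorphism `τ` of the algebraic closure
of `ℚ_p`) if the eigenvalues of `ρ_p(γ)` can be written as `z_1, ..., z_N` with relations `R` and
`τ (z_i) = z_{a(i)}` (no quotient of two of them being a root of unity).  In the same way we define the types
of the elements of the Lie algebra of the image, with the linear relations between the eigenvalues.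

**Theorem.**  Let `T j` (for `j` in any index set) be sets of types which occur at primes `p j` for
automorphisms `τ j`.  Suppose that `A`, the sets `T j` and the number `m` satisfy the following condition
`OrbitBound` on finite permutation groups: if `M` is a normal subgroup of a subgroup `G` of `A` such that the
elements of `T j` are, for every `j`, conjugate in `A` to elements of a coset of `M` in `G`, and if `N` is a
subgroup of `A` with an element `y` of the normalizer of `N` in `A` such that all elements of some coset `M * g`
(`g` in `G`) are conjugate in `A` to elements of `N * y`, then `N` has at most `m` orbits.  Then for all prime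
numbers `ℓ` outside of a set of natural density zero, `V_ℓ` is semisimple over all finite extensions of the
base field, and for every subgroup `Δ` of finite index, the algebra of the endomorphisms which commute with
`Δ` has dimension at most `m`; so all endomorphisms of `V_ℓ` over finite extensions are the known ones (the
Tate conjecture for endomorphisms of the motive, if the known endomorphisms are algebraic).

The condition is satisfied, for example, in the following cases (see `orbitBound_of_invariable` and
`orbitBound_of_central`): the types at one prime `p` and one `τ` contain `1` and generate `A`
invariably, and `m` is the number of orbits of `A`; or `A = W * Z` with a central subgroup `Z`, these types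
contain `1` and a set which generates `W` invariably, and `m` is the number of orbits of `W`.  For example: the
sum of the standard representation of a general linear group, or of the representation of dimension `27` of
`E_6`, and of its dual, with the action of an imaginary quadratic field (`m = 2`): here the orbits of the
groups `N` are not self-dual, and the polarization does not help (compare `ZeroOneLaw` in MP_b4801b_ag).
Nothing is assumed about the motivic Galois group or its rank.

Earlier results: in `ZeroOneLaw` the system is polarized, and the orbits have to be self-dual.
`ArbitraryGroupDensityOne` and the zero-one law for the Mumford-Tate conjecture (MP_3703a7_ag) need the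
motivic Galois group, and its rank has to be `r`.

Idea of the proof.  As for `ZeroOneLaw`, one obtains for all `ℓ` outside of a set of density zero: a place of
good reduction, with the Frobenius eigenvectors `e_1, ..., e_N` of `V_ℓ` over the algebraic closure of
`ℚ_ℓ`, and a group `N` of permutations with at most `m` orbits, such that for every subspace `U` (over the
algebraic closure) which is stable under an open subgroup, the set of the indices `i` with `e_i` in `U` is
stable under `N`.  An endomorphism over the algebraic closure which commutes with an open subgroup is diagonal
with respect to the `e_i` and constant on the orbits of `N`; so the dimension of these endomorphisms is at most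
`m`, and by assumption it is equal to `m` and all such diagonal endomorphisms commute with an open
subgroup `Δ₀`.  If `W` is a subspace over `ℚ_ℓ` which is stable under an open subgroup `Δ`, the projection to
`W` along the `e_i` outside of `W` is such an endomorphism.  A linear form from the algebraic
closure to `ℚ_ℓ` makes it into a projection to `W` over `ℚ_ℓ` which commutes with `Δ₀`; by averaging we obtain
one which commutes with `Δ`.
-/

set_option autoImplicit false

namespace Pool.Agent.Results.MP_8f1292_ag.EnoughEndomorphisms

open NumberField IsDedekindDomain Polynomial Module Pool.Agent.Y114.TF Pool.Agent.Y114.GF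
  Pool.Agent.Y114.MU Pool.Agent.Y114.RM Pool.Agent.R931.GD Pool.Agent.R931.ZL Pool.Agent.R931.ZM
  Pool.Agent.R931.ZF

theorem result (K : Type) [Field K] [NumberField K] (Γ : Type) [Group Γ] [TopologicalSpace Γ]
    [IsTopologicalGroup Γ] [CompactSpace Γ] (s : Gal(AlgebraicClosure K/K) →* Γ)
    (hs : Continuous s)
    -- the `ℓ`-adic realizations
    (N : ℕ) (hN : 0 < N)
    (ρ : ∀ (ℓ : ℕ) [Fact ℓ.Prime], Rep1 Γ N ℓ) (hρ : ∀ (ℓ : ℕ) [Fact ℓ.Prime], Conts (ρ ℓ))
    -- good reduction outside of a finite set of places
    (wt : ℤ) (c : ℕ) (S : Set (HeightOneSpectrum (𝓞 K))) (hS : S.Finite)
    (P : HeightOneSpectrum (𝓞 K) → ℚ[X])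
    (hP : ∀ (ℓ : ℕ) [Fact ℓ.Prime], ∀ v ∉ S, ¬ Above v ℓ →
      GoodReduction (restrictTo (ρ ℓ) s) () wt v (P v))
    (hint : ∀ v ∉ S, IntegralAt c v (P v))
    -- at most `r` independent eigenvalues
    (r : ℕ) (hrank : ∀ v ∉ S, ¬ IndepRoots (r + 1) {P v})
    -- the relations, and their automorphism group
    (R : Set (Fin N → ℤ)) (hR : RankGE r R)
    -- the types at some prime numbers
    (J : Type) (T : J → Set (Equiv.Perm (Fin N))) (hne : ∃ j, (T j).Nonempty)
    (p : J → ℕ) [∀ j, Fact (p j).Prime] (τ : ∀ j, Gal(PadicAlgCl (p j)/ℚ_[p j]))
    (htypes : ∀ j, ∀ a ∈ T j, TypeOccurs s (ρ (p j)) R (τ j) a)
    -- the number of orbits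
    (m : ℕ) (hm : OrbitBound (relAut R) T m)
    -- the known endomorphisms
    (hend : ∀ (ℓ : ℕ) [Fact ℓ.Prime], ∃ Δ : Subgroup Γ, Δ.FiniteIndex ∧
      m ≤ centralizerDim (ρ ℓ () '' (Δ : Set Γ))) :
    HasDensityZero {ℓ | ∃ _ : Fact ℓ.Prime, ¬ (Semisimple (ρ ℓ) ∧
      ∀ Δ : Subgroup Γ, Δ.FiniteIndex → centralizerDim (ρ ℓ () '' (Δ : Set Γ)) ≤ m)} :=
  main_endF (K := K) (Γ := Γ) (s := s) (N := N) (wt := wt) (c := c) (r := r) (S := S) (P := P)
    (ρ := ρ) ⟨hN, hs, hρ, hS, hP, hint, fun v hv => hrank v hv.1⟩ R hR T hne p τ htypes m hm hend

end Pool.Agent.Results.MP_8f1292_ag.EnoughEndomorphisms
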