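import Mathlib
import Pool.Agent.R384.Z.Semi

/-!
# Semisimplicity can be checked at one place above `2`

Let `k = ℚ(√-d)`, where `d` is a prime number that is `7` modulo `16`, or the product of a prime
number that is `5` modulo `8` and of a prime number that is `3` modulo `8`. Let `L ⊇ k` be a field
contained in a finite Galois extension `M / k` of degree a power of `2`, unramified outside `2`; there
is no condition on the structure of the Galois group of `M / k`, and `L / k` need not be Galois.

Let `E` be a finite extension of `ℚ_2` (or the fraction field of any Noetherian local domain with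
finite residue field of characteristic `2`), and let `V` be a continuous `E`-representation of `G_L`,
of any dimension `n`, which is unramified outside `2` and residually unipotent; for example the
`2`-adic realization of a motive over `L` with good reduction outside `2` such that `G_L` acts through
a `2`-group on a lattice modulo `2`.

Theorem: for every place `v` of `L` above `2`, every subspace of `V` which is stable under the
decomposition group at `v` is stable under `G_L`. In particular `V` is a semisimple representation of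
`G_L` if and only if it is a semisimple representation of the decomposition group at `v`. For example,
an extension of de Rham representations splits if the Hodge–Tate weights at `v` are such that the local
`H^1_g` vanishes.
-/

set_option autoImplicit false

namespace Pool.Agent.Results.MP_8f1292_ag.OnePlaceAboveTwo

open Matrix IsLocalRing

/-- An algebraic closure of `ℚ`. -/
abbrev QBar : Type := AlgebraicClosure ℚ

/-- The field `ℚ(s)`. It is `ℚ(√-d)` if `s² = -d`. -/
noncomputable abbrev K (s : QBar) : IntermediateField ℚ QBar := IntermediateField.adjoin ℚ {s}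

/-- The absolute Galois group of `ℚ(s)`. -/
def Gal (s : QBar) : Type := QBar ≃ₐ[K s] QBar

/-- its group structure -/
noncomputable instance instGroupGal (s : QBar) : Group (Gal s) := AlgEquiv.aut (R := K s) (A₁ := QBar)

/-- its Krull topology -/
noncomputable instance instTopGal (s : QBar) : TopologicalSpace (Gal s) := krullTopology (K s) QBar

/-- The action of the Galois group on `ℚ̄`. -/
noncomputable def app {s : QBar} (σ : Gal s) (x : QBar) : QBar := (show QBar ≃ₐ[K s] QBar from σ) x

/-- The class of the numbers `d`: the primes `7 mod 16`, and the products of a prime `5 mod 8` and of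
a prime `3 mod 8`. -/
def InClass (d : ℕ) : Prop :=
  (d.Prime ∧ d % 16 = 7) ∨ ∃ p q : ℕ, p.Prime ∧ q.Prime ∧ p % 8 = 5 ∧ q % 8 = 3 ∧ d = p * q

/-- The decomposition group of the place given by the embedding `ι` of `ℚ̄`. -/
def Dec {s : QBar} {p : ℕ} [Fact p.Prime] (ι : QBar →ₐ[ℚ] PadicAlgCl p) : Set (Gal s) :=
  {σ | ∃ τ : PadicAlgCl p ≃ₐ[ℚ_[p]] PadicAlgCl p, ∀ x, τ (ι x) = ι (app σ x)}

/-- Its inertia group: the automorphisms which are trivial on the residue field. -/
def Inr {s : QBar} {p : ℕ} [Fact p.Prime] (ι : QBar →ₐ[ℚ] PadicAlgCl p) : Set (Gal s) :=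
  {σ | ∃ τ : PadicAlgCl p ≃ₐ[ℚ_[p]] PadicAlgCl p, (∀ x, τ (ι x) = ι (app σ x)) ∧
    ∀ z : PadicAlgCl p, ‖z‖ ≤ 1 → ‖τ z - z‖ < 1}

/-- `N` is the Galois group of `ℚ̄ / M` for a finite Galois extension `M / ℚ(s)` whose degree is a
power of `2` and which is unramified outside `2`: `N` is a normal open subgroup of index a power of
`2` and contains the inertia groups of the odd primes. -/
structure TwoExtension {s : QBar} (N : Subgroup (Gal s)) : Prop where
  isOpen : IsOpen (N : Set (Gal s))
  normal : N.Normal
  index : ∃ a : ℕ, N.index = 2 ^ a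
  unramified : ∀ (p : ℕ) [Fact p.Prime] (ι : QBar →ₐ[ℚ] PadicAlgCl p), p ≠ 2 →
    ∀ σ ∈ (Inr ι : Set (Gal s)), σ ∈ N

/-- The representation `ρ` of the absolute Galois group `H` of `L` is continuous, residually
unipotent and unramified outside `2`. -/
structure Admissible {s : QBar} {H : Subgroup (Gal s)} {A : Type} [CommRing A] [IsLocalRing A]
    [TopologicalSpace A] {n : ℕ} (ρ : H →* GL (Fin n) A) : Prop where
  cont : ∀ i j, Continuous fun σ => (ρ σ : Matrix (Fin n) (Fin n) A) i j
  unipotent : ∀ σ, ∃ m : ℕ, ∀ i j,
    (((ρ σ : Matrix (Fin n) (Fin n) A) - 1) ^ m) i j ∈ maximalIdeal A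
  unramified : ∀ (p : ℕ) [Fact p.Prime] (ι : QBar →ₐ[ℚ] PadicAlgCl p), p ≠ 2 →
    ∀ σ : H, (σ : Gal s) ∈ Inr ι → ρ σ = 1

/-- The action of `σ` on `V = F ^ n`. -/
noncomputable def act {s : QBar} {H : Subgroup (Gal s)} {A : Type} [CommRing A] (F : Type) [Field F] [Algebra A F]
    {n : ℕ} (ρ : H →* GL (Fin n) A) (σ : H) (v : Fin n → F) : Fin n → F :=
  ((ρ σ : Matrix (Fin n) (Fin n) A).map (algebraMap A F)) *ᵥ v

/-- The subspace `W` is stable under the elements of `H` which are in `D`. -/
def StableUnder {s : QBar} {H : Subgroup (Gal s)} {A : Type} [CommRing A] {F : Type} [Field F]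
    [Algebra A F] {n : ℕ} (ρ : H →* GL (Fin n) A) (D : Set (Gal s)) (W : Submodule F (Fin n → F)) :
    Prop := ∀ σ : H, (σ : Gal s) ∈ D → ∀ w ∈ W, act F ρ σ w ∈ W

/-- The restriction of `V` to `D` is semisimple: every stable subspace has a stable complement. -/
def SemisimpleOn {s : QBar} {H : Subgroup (Gal s)} {A : Type} [CommRing A] (F : Type) [Field F]
    [Algebra A F] {n : ℕ} (ρ : H →* GL (Fin n) A) (D : Set (Gal s)) : Prop :=
  ∀ W : Submodule F (Fin n → F), StableUnder ρ D W → ∃ W', StableUnder ρ D W' ∧ IsCompl W W'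

/-- **The decomposition group at one place above `2` has the same stable subspaces as the absolute
Galois group of `L`**; so semisimplicity can be checked at one place above `2`. -/
theorem result : ∀ d : ℕ, InClass d → ∀ s : QBar, s ^ 2 = -(d : QBar) →
    ∀ H N : Subgroup (Gal s), N ≤ H → TwoExtension N →
    ∀ (A : Type) [CommRing A] [IsLocalRing A] [IsNoetherianRing A] [TopologicalSpace A],
      IsAdic (maximalIdeal A) → Finite (ResidueField A) → (2 : A) ∈ maximalIdeal A →
    ∀ (F : Type) [Field F] [Algebra A F] [IsFractionRing A F] (n : ℕ) (ρ : H →* GL (Fin n) A),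
      Admissible ρ → ∀ ι : QBar →ₐ[ℚ] PadicAlgCl 2,
        (∀ W : Submodule F (Fin n → F), StableUnder ρ Set.univ W ↔ StableUnder ρ (Dec ι) W) ∧
        (SemisimpleOn F ρ Set.univ ↔ SemisimpleOn F ρ (Dec ι)) := by
  intro d hd s hs H N hNH hN A _ _ _ _ hA hfin h2 F _ _ _ n ρ hρ ι
  have hdense := Pool.Agent.Z384.dense hs hd hNH hN.normal hN.index hN.isOpen hN.unramified hA hfin
    h2 hρ.cont hρ.unipotent hρ.unramified ι
  have key : ∀ W : Submodule F (Fin n → F), StableUnder ρ Set.univ W ↔ StableUnder ρ (Dec ι) W :=
    fun W => ⟨fun h σ _ => h σ trivial, fun h σ _ =>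
      Pool.Agent.Z384.stable_of_dense (F := F) ρ hdense (W := W) (fun δ hδ => h δ hδ) σ⟩
  refine ⟨key, fun h W hW => ?_, fun h W hW => ?_⟩
  · obtain ⟨W', h1, h2⟩ := h W ((key W).2 hW)
    exact ⟨W', (key W').1 h1, h2⟩
  · obtain ⟨W', h1, h2⟩ := h W ((key W).1 hW)
    exact ⟨W', (key W').2 h1, h2⟩

end Pool.Agent.Results.MP_8f1292_ag.OnePlaceAboveTwo
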