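import Pool.Agent.R696.TF.Sub

/-!
# The Grothendieck-Serre semisimplicity conjecture and trilinear forms

Let `F` be a number field, `G` its absolute Galois group and `p` a prime number. Let `𝓜` be the category
of motives over `F` for absolute Hodge cycles, which is abelian and semisimple (Deligne), and `R` the
`p`-adic realization, with values in the representations of `G` over `ℚ_p`, that is, modules over the
group algebra. For every separated scheme `X` of finite type over `F` let `H_i(X)(-j)` be the sum of the
graded pieces `gr^W_w` of its Borel-Moore homology, twisted; these are objects of `𝓜` by the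
construction of Deligne of the weight filtration from smooth projective varieties (Jannsen), and the
long exact sequences of mixed realizations of a closed subscheme and its complement give long exact
sequences of the graded pieces in `𝓜` (`Homology`; for all the fields of this structure see
`Pool/Agent/R696/TF/Cat.lean`). The `p`-adic realization of `H_i(X)(-j)` is the sum of the graded pieces
of the dual of `H^i_c(X_F̄, ℚ_p)(j)`.

`SemisimpleOn`: the representations `R (H_i(X)(-j))` are semisimple. For smooth projective `X` this is
the semisimplicity of the étale cohomology of `X`; by the remark in the problem file Q1 for `F` and `p`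
says that `SemisimpleOn` holds for all smooth projective `X`.

Let `S` be the class of the smooth projective schemes. By resolution of singularities every smooth `X`
of dimension at most `d` is birational to a member of `S` of dimension at most `d` (`Models`). By the
theorem of Faltings `SemisimpleOn` holds for smooth projective curves (`hlow`).

The hypersurface of a trilinear form `T` over `F` is the affine cubic hypersurface `T(x, y, z) = 1`
(`hypS T`), `x`, `y`, `z` being three blocks of variables of any sizes. It is smooth.

*Proof.* In a semisimple category an object with an exact sequence `A → B → D` is the direct sum of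
subobjects of `A` and `D`; so the class of the motives with semisimple realization contains `B` if it
contains `A` and `D`. Hence this is a property of schemes which passes to the third of the schemes `X`,
`Z`, `X - Z` from two of them, and which is invariant under affine bundles; now the universality of the
trilinear forms (starting library) applies.
-/

set_option autoImplicit false

open CategoryTheory CategoryTheory.Limits AlgebraicGeometry Pool.Agent.R696.TF Pool.Agent.Y116.UV

namespace Pool.Agent.Results.MP_8f1292_ag.TrilinearForms

universe u v w

/-- The realizations of all the homology objects of `X` are semisimple representations of `G` over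
`ℚ_p`. -/
def SemisimpleOn {p : ℕ} [Fact p.Prime] {G : Type} [Group G] {F : Type} [Field F] {𝓜 : Type u}
    [Category.{v} 𝓜] [Abelian 𝓜] (R : 𝓜 ⥤ ModuleCat.{w} (MonoidAlgebra ℚ_[p] G)) (H : Homology F 𝓜)
    (X : Sch F) : Prop :=
  ∀ i j : ℤ, IsSemisimpleModule (MonoidAlgebra ℚ_[p] G) (R.obj (H.obj i j X))

section

variable {A : Type} [Ring A] {𝓜 : Type u} [Category.{v} 𝓜] [Abelian 𝓜] (R : 𝓜 ⥤ ModuleCat.{w} A)
  [R.Additive]

theorem sum_closed : SumClosed fun M : 𝓜 => IsSemisimpleModule A (R.obj M) where
  iso e h := by
    have := h
    exact IsSemisimpleModule.congr (R.mapIso e).toLinearEquiv.symm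
  sum M N hM hN := by
    have hM' : IsSemisimpleModule A (R.obj M) := hM
    have hN' : IsSemisimpleModule A (R.obj N) := hN
    let f : R.obj M →ₗ[A] R.obj (M ⊞ N) := (R.map biprod.inl).hom
    let g : R.obj N →ₗ[A] R.obj (M ⊞ N) := (R.map biprod.inr).hom
    have h1 : IsSemisimpleModule A (LinearMap.range f) := IsSemisimpleModule.range f
    have h2 : IsSemisimpleModule A (LinearMap.range g) := IsSemisimpleModule.range g
    have h3 : IsSemisimpleModule A ↥(LinearMap.range f ⊔ LinearMap.range g) :=
      IsSemisimpleModule.sup h1 h2
    have h4 : LinearMap.range f ⊔ LinearMap.range g = ⊤ := by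
      rw [eq_top_iff]
      intro x _
      have h5 : R.map (biprod.fst : M ⊞ N ⟶ M) ≫ R.map (biprod.inl : M ⟶ M ⊞ N) +
          R.map (biprod.snd : M ⊞ N ⟶ N) ≫ R.map (biprod.inr : N ⟶ M ⊞ N) = 𝟙 _ := by
        rw [← R.map_comp, ← R.map_comp, ← R.map_add, biprod.total, R.map_id]
      have h6 : f ((R.map (biprod.fst : M ⊞ N ⟶ M)).hom x) +
          g ((R.map (biprod.snd : M ⊞ N ⟶ N)).hom x) = x :=
        congrArg (fun q : R.obj (M ⊞ N) ⟶ R.obj (M ⊞ N) => q.hom x) h5
      rw [← h6]
      exact Submodule.add_mem_sup ⟨_, rfl⟩ ⟨_, rfl⟩
    rw [h4] at h3
    exact IsSemisimpleModule.congr (Submodule.topEquiv (R := A) (M := R.obj (M ⊞ N))).symm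

theorem her_iff (hs : Semisimple 𝓜) (M : 𝓜) :
    Her (fun M : 𝓜 => IsSemisimpleModule A (R.obj M)) M ↔ IsSemisimpleModule A (R.obj M) := by
  constructor
  · intro h
    exact h M (𝟙 M)
  · intro h N i _
    obtain ⟨⟨r⟩⟩ := hs.mono i
    have h1 : R.map i ≫ R.map r.retraction = 𝟙 _ := by
      rw [← R.map_comp, r.id, R.map_id]
    have h2 : Function.LeftInverse (R.map r.retraction).hom (R.map i).hom := fun x =>
      congrArg (fun q : R.obj N ⟶ R.obj N => q.hom x) h1
    exact IsSemisimpleModule.of_injective (R.map i).hom h2.injective

end

/-- **The semisimplicity conjecture and trilinear forms.** Let `F` be a number field and `p` a prime.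
1. The following are equivalent: the étale cohomology of all smooth projective schemes over `F` is
   semisimple (Q1 for `F` and `p`); the graded pieces of the homology of all schemes are semisimple;
   the graded pieces of the homology of the hypersurfaces `T(x, y, z) = 1` of all trilinear forms over
   `F` are semisimple.
2. For every `d` the following are equivalent: semisimplicity for the smooth projective schemes of
   dimension at most `d`; for all schemes of dimension at most `d`; for the hypersurfaces of the
   trilinear forms with a block of at most `d + 2` variables.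
3. Semisimplicity holds for the hypersurfaces of the trilinear forms with a block of at most three
   variables.
4. The hypersurfaces are smooth. -/
theorem result (F : Type) [Field F] [NumberField F] (p : ℕ) [Fact p.Prime] (G : Type) [Group G]
    (𝓜 : Type u) [Category.{v} 𝓜] [Abelian 𝓜] (hs : Semisimple 𝓜)
    (R : 𝓜 ⥤ ModuleCat.{w} (MonoidAlgebra ℚ_[p] G)) [R.Additive] (H : Homology F 𝓜)
    (S : Sch F → Prop) (hpoint : S (aff F F)) (hS : Models S)
    (hlow : ∀ X : Sch F, FT True X → S X → topologicalKrullDim X.left ≤ (1 : ℕ) →
      SemisimpleOn R H X) :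
    ([∀ X : Sch F, FT True X → S X → SemisimpleOn R H X,
      ∀ X : Sch F, FT True X → SemisimpleOn R H X,
      ∀ (a b c : ℕ) (T : Fin a → Fin b → Fin c → F), SemisimpleOn R H (hypS T)].TFAE) ∧
    (∀ d : ℕ, [∀ X : Sch F, FT True X → S X → topologicalKrullDim X.left ≤ d →
        SemisimpleOn R H X,
      ∀ X : Sch F, FT True X → topologicalKrullDim X.left ≤ d → SemisimpleOn R H X,
      ∀ (a b c : ℕ) (T : Fin a → Fin b → Fin c → F), (a ≤ d + 2 ∨ b ≤ d + 2 ∨ c ≤ d + 2) →
        SemisimpleOn R H (hypS T)].TFAE) ∧
    (∀ (a b c : ℕ) (T : Fin a → Fin b → Fin c → F), (a ≤ 3 ∨ b ≤ 3 ∨ c ≤ 3) →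
      SemisimpleOn R H (hypS T)) ∧
    ∀ (a b c : ℕ) (T : Fin a → Fin b → Fin c → F), Smooth (hypS T).hom := by
  have hE : ∀ X : Sch F, SemisimpleOn R H X ↔
      HoldsOn (fun M : 𝓜 => IsSemisimpleModule (MonoidAlgebra ℚ_[p] G) (R.obj M)) H X :=
    fun X => forall_congr' fun i => forall_congr' fun j => (her_iff R hs _).symm
  simp only [hE] at hlow ⊢
  obtain ⟨h1, h2, h3⟩ := main_her hs (sum_closed R) H S hpoint hS 1 hlow
  exact ⟨h1, h2, h3, fun _ _ _ _ => Pool.Agent.Z125.UN.smooth_hypS _⟩

end Pool.Agent.Results.MP_8f1292_ag.TrilinearForms
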