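import Mathlib
import Pool.Agent.R931.ZG.AtRat

/-!
# Semisimplicity at a given prime, from finitely many Frobenius polynomials

Let `M` be a pure motive over a number field `K`, or over a finitely generated field `k` of characteristic
zero (for instance the cohomology `H ^ i (X)` of a smooth projective variety, or a part of it), with `ℓ`-adic
realizations of dimension `N`.  `Γ` is the Galois group of `K` (or the fundamental group of a model of `k` over a
number field `K`, and `s` is given by a `K`-rational point).  Outside of a finite set `S` of places `v` the
motive has good reduction (along the point), with Frobenius polynomials `P v` independent of `ℓ`, and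
`(q v) ^ c` times a Frobenius eigenvalue is an algebraic integer.  Let `r` be a number such that
no `P v` has more than `r` multiplicatively independent roots, for instance the rank of the
Mumford-Tate group or of the motivic Galois group.

The *relations* between numbers `z_1, ..., z_N` are the vectors `n` of integers such that the product of
the `z_i ^ {n_i}` is a root of unity.  Let `R` be a set of vectors which has rank at most `N - r`, and let `A` be
the group of permutations of `{1, ..., N}` which preserve `R`.  We fix a prime number `ℓ` and an
automorphism `τ` of the algebraic closure of `ℚ_ℓ`.
An element `γ` of the image of the Galois group at `ℓ` has the *type* `a` if the eigenvalues of `ρ_ℓ(γ)` can be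
written as `z_1, ..., z_N` with relations `R` and `τ (z_i) = z_{a(i)}` (no quotient of two of them being a root
of unity).  In the same way we define the types of the elements of the Lie algebra of the image.
The types of the Frobenius element at `v` can be read off from `P v`: if `P v` is separable modulo `ℓ`
and `τ` induces the Frobenius automorphism of the residue field, then the cycle type of `a` is given by
the degrees of the factors of `P v` modulo `ℓ`.
A *duality* is an element `c` of `A` such that all the products `z_i * z_{c(i)}` are equal modulo the relations.
For a group `H` of permutations let `Λ_H` be the lattice which is generated by `R` and by the vectors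
`e_i - e_{a(i)}`, `a` in `H`.

Let `T` be a nonempty set of types which occur at `ℓ` for `τ`.  We say that `T` *forces* a condition on
groups of permutations if it is satisfied by all subgroups `H` of `A` for which there is an element `y` of `A`
which normalizes `H` such that all elements of `T` are conjugate in `A` to elements of the coset `H * y`.

**Theorem.**  Suppose that `T` forces that `H` satisfies at least one of the following three conditions:

* the number of the orbits of `H` is at most the dimension of the algebra of the endomorphisms of the
  realization at `ℓ` over some finite extension of the ground field;
* the realization at `ℓ` is polarized, and all orbits of `H` are stable under the dualities;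
* there is a Lie algebra `𝔤` with the properties of the Lie algebra of the motivic Galois group at `ℓ`
  (`Motivic`), of rank at most `r`, such that for all groups `B` of permutations which contain `H` and have at
  least as many orbits as the dimension of the commutant of `𝔤`, nonzero multiples of the vectors
  `e_i - e_{b(i)}`, `b` in `B`, are contained in `Λ_H` (`LatticeRat`).

Then the `ℓ`-adic representation is semisimple, over all finite extensions of the ground field.

The cohomology of a smooth projective variety is always polarized, by the hard Lefschetz theorem, and so the
first two conditions are about Frobenius polynomials only.  If `𝔤` is the sum of a semisimple Lie algebra and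
the homotheties, the third condition is satisfied for *every* representation (the weights being of multiplicity
one) as soon as `H` contains the Weyl group `W` of `𝔤`: the differences of the weights are rational linear
combinations of the roots, and a multiple of each root `α` is the difference of a weight and its image under
the reflection of `α`.
So if `A` is the product of `W` and a central subgroup, the semisimplicity at `ℓ` can be proved by
computing finitely many Frobenius polynomials, namely polynomials whose types at `ℓ` generate `W` invariably,
together with one which splits over `ℚ_ℓ` (see `forcesAt_of_central`).  This includes cases where the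
`ℓ`-adic Lie algebra cannot be determined in this way: for the standard representation of `SO(2 n + 1)`
the subgroup `O(2 n)` has the same Weyl group.  Contrary to the usual arguments
with the degrees of the factors of Frobenius polynomials, the eigenvalues at different places are compared:
a stable subspace determines sets of eigenvalues at all places, which correspond to each other under
bijections which preserve the multiplicative relations.  So the theorem applies also if at `ℓ` all
Frobenius polynomials have factors of the same degree `d < N`, or if the representation is reducible.

The theorem is about one given prime; `ZeroOneLaw` in MP_b4801b_ag, `EnoughEndomorphisms` in this folder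
and `ZeroOneLaw` in MP_3703a7_ag are about `100` percent of the primes, and they
deduce the statements from the types at another prime.  `TypesAtOnePrime` in MP_c1bb77_ag deduces the
Mumford-Tate conjecture at `ℓ` from the integral form of the third condition.

Idea of the proof.  Let `U` be a subspace of the realization, over the algebraic closure of `ℚ_ℓ`, which is
stable under an open subgroup.  At every good place `v`, `U` determines a set of Frobenius eigenvalues.  For two
good places consider the pencil of tangent vectors which is spanned by the logarithms of the Frobenius
elements: its members have at most `r` independent eigenvalues, so there is a bijection between the two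
sets of eigenvalues which preserves the relations and the sets determined by all `U` at the same
time.  The automorphism `τ` permutes the subspaces `U`; so we obtain a group `H` which preserves
the sets of all `U`, and a coset `H * y` which contains conjugates of all elements of `T`.
If `H` has few orbits, then the projections to the orbits are defined by endomorphisms which commute
with an open subgroup; hence the representation is semisimple.  If the orbits are self-dual, one uses the
polarization.  In the third case let `L ≤ 𝔤` be the Lie algebra of the endomorphisms which are tangent
to the image of Galois in the Zariski topology; it contains a maximal torus `t` of `𝔤`.  If `L` is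
not reductive, the sum of the weights of `L` on its unipotent radical is dual, with respect to the trace form,
to an element `d` of `t`; the roots of `𝔤` are real at `d`, and the eigenvectors whose eigenvalues exceed a
given one by a nonnegative number span a subspace which is stable under `L`.  So the eigenvalues of `d` are
constant on the orbits of `H`, and by assumption all roots of `𝔤` vanish at `d`; but the sum of the weights
of the radical is positive at `d`.
-/

set_option autoImplicit false

namespace Pool.Agent.Results.MP_8f1292_ag.TypesAtOnePrime

open NumberField IsDedekindDomain Polynomial Module Pool.Agent.Y114.TF Pool.Agent.Y114.GF
  Pool.Agent.Y114.MU Pool.Agent.Y114.RM Pool.Agent.R931.GD Pool.Agent.R931.ZL Pool.Agent.R931.ZM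
  Pool.Agent.R931.PD Pool.Agent.R931.ZF Pool.Agent.R931.ZG

theorem result (K : Type) [Field K] [NumberField K] (Γ : Type) [Group Γ] [TopologicalSpace Γ]
    [IsTopologicalGroup Γ] [CompactSpace Γ] (s : Gal(AlgebraicClosure K/K) →* Γ)
    (hs : Continuous s)
    -- the `ℓ`-adic realizations
    (N : ℕ) (hN : 0 < N)
    (ρ : ∀ (ℓ : ℕ) [Fact ℓ.Prime], Rep1 Γ N ℓ) (hρ : ∀ (ℓ : ℕ) [Fact ℓ.Prime], Conts (ρ ℓ))
    -- good reduction outside of a finite set of places
    (wt : ℤ) (c : ℕ) (S : Set (HeightOneSpectrum (𝓞 K))) (hS : S.Finite)
    (P : HeightOneSpectrum (𝓞 K) → ℚ[X])
    (hP : ∀ (ℓ : ℕ) [Fact ℓ.Prime], ∀ v ∉ S, ¬ Above v ℓ →
      GoodReduction (restrictTo (ρ ℓ) s) () wt v (P v))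
    (hint : ∀ v ∉ S, IntegralAt c v (P v))
    -- at most `r` independent eigenvalues
    (r : ℕ) (hrank : ∀ v ∉ S, ¬ IndepRoots (r + 1) {P v})
    -- the relations, and their automorphism group
    (R : Set (Fin N → ℤ)) (hR : RankGE r R)
    -- the types at the prime number `ℓ`
    (ℓ : ℕ) [Fact ℓ.Prime] (T : Set (Equiv.Perm (Fin N))) (hne : T.Nonempty)
    (τ : Gal(PadicAlgCl ℓ/ℚ_[ℓ])) (htypes : ∀ a ∈ T, TypeOccurs s (ρ ℓ) R τ a)
    -- the condition on the permutation groups
    (hT : ForcesAt (relAut R) T fun H =>
      (∃ Δ : Subgroup Γ, Δ.FiniteIndex ∧
        orbitCount H ≤ centralizerDim (ρ ℓ () '' (Δ : Set Γ))) ∨
      (Polarized (ρ ℓ) ∧ SelfDualOrbits R H) ∨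
      ∃ 𝔤 : End1 N ℓ, Motivic (ρ ℓ) 𝔤 ∧ RankLE 𝔤 r ∧ LatticeRat R (commutantDim 𝔤) H) :
    Semisimple (ρ ℓ) :=
  semi_at3 (K := K) (Γ := Γ) (s := s) (N := N) (wt := wt) (c := c) (r := r) (S := S) (P := P)
    (ρ := ρ) ⟨hN, hs, hρ, hS, hP, hint, fun v hv => hrank v hv.1⟩ R hR ℓ T hne τ htypes hT

end Pool.Agent.Results.MP_8f1292_ag.TypesAtOnePrime
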